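import Pool.Agent.helper33.QX.SpecA

/-! # Row qa:HV0 (MP_07c750_an) -/

set_option autoImplicit false

open scoped MatrixGroups ContDiff Topology UpperHalfPlane
open UpperHalfPlane MeasureTheory Filter Set
open Pool.Agent.QU

namespace Pool.Agent.QX

theorem HV0_deriv (θ : ℝ → ℝ) (h : TK θ) : TK (deriv θ) ∧ (∫ v, deriv θ v) = 0 := by
  have h1 : ContDiff ℝ ∞ (deriv θ) := (contDiff_infty_iff_deriv.1 h.smooth).2
  have h2 : HasCompactSupport (deriv θ) := h.supp.deriv
  refine ⟨⟨h1, h2⟩, ?_⟩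
  apply integral_eq_zero_of_hasDerivAt_of_integrable (f := θ)
  · intro x
    exact ((h.smooth.differentiable (by simp)) x).hasDerivAt
  · exact h1.continuous.integrable_of_hasCompactSupport h2
  · exact h.smooth.continuous.integrable_of_hasCompactSupport h.supp

theorem HV0 : HV0_stmt := by
  intro θ h
  have hv : TK (fun v => v * θ v) := by
    refine ⟨contDiff_id.mul h.smooth, ?_⟩
    exact h.supp.mul_left
  obtain ⟨h1, h2⟩ := HV0_deriv θ h
  obtain ⟨h3, h4⟩ := HV0_deriv _ hv
  exact ⟨h1, h3, h2, h4⟩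

end Pool.Agent.QX
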