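import Pool.Agent.helper33.QX.SpecA

/-! # Row qa:HV2 (MP_07c750_an) -/

set_option autoImplicit false

open scoped MatrixGroups ContDiff Topology UpperHalfPlane
open UpperHalfPlane MeasureTheory Filter Set
open Pool.Agent.QU

namespace Pool.Agent.QX

/-- the linear map `w ↦ w + v im w` -/
noncomputable def HV2_L (v : ℝ) : ℂ →L[ℝ] ℂ :=
  ContinuousLinearMap.id ℝ ℂ + v • (Complex.ofRealCLM.comp Complex.imCLM)

theorem HV2_Lapp (v : ℝ) (w : ℂ) : HV2_L v w = w + ((v * w.im : ℝ) : ℂ) := by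
  simp [HV2_L]

theorem HV2_Lim (v : ℝ) (w : ℂ) : (HV2_L v w).im = w.im := by
  rw [HV2_Lapp]
  simp

theorem HV2_Lcont : Continuous HV2_L := by
  unfold HV2_L
  fun_prop

theorem HV2_u (u : ℍ → ℝ) (v : ℝ) (z : ℍ) : u ((v * z.im) +ᵥ z) = onC u (HV2_L v (z : ℂ)) := by
  have h : (((v * z.im) +ᵥ z : ℍ) : ℂ) = HV2_L v (z : ℂ) := by
    rw [HV2_Lapp, coe_vadd, add_comm]
    simp
  rw [← h]
  show _ = u (ofComplex _)
  rw [ofComplex_apply]

theorem HV2_onC (θ : ℝ → ℝ) (u : ℍ → ℝ) (w : ℂ) (hw : 0 < w.im) :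
    onC (hav θ u) w = ∫ v : ℝ, θ v * onC u (HV2_L v w) := by
  have h : ((ofComplex w : ℍ) : ℂ) = w := by
    rw [ofComplex_apply_of_im_pos hw]
  unfold onC hav
  refine integral_congr_ae (Eventually.of_forall fun v => ?_)
  have h1 := HV2_u u v (ofComplex w)
  rw [h] at h1
  simp only
  rw [h1]
  rfl

theorem HV2_open : IsOpen {w : ℂ | 0 < w.im} := isOpen_lt continuous_const Complex.continuous_im

theorem HV2_diff (u : ℍ → ℝ) (hu : CD ∞ u) (w : ℂ) (hw : 0 < w.im) :
    HasFDerivAt (onC u) (fderiv ℝ (onC u) w) w := by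
  have h1 : ContDiffAt ℝ ∞ (onC u) w := (hu w hw).contDiffAt (HV2_open.mem_nhds hw)
  exact (h1.differentiableAt (by simp)).hasFDerivAt

theorem HV2_cf (u : ℍ → ℝ) (hu : CD ∞ u) :
    ContinuousOn (fderiv ℝ (onC u)) {w : ℂ | 0 < w.im} :=
  ContDiffOn.continuousOn_fderiv_of_isOpen hu HV2_open (by simp)

/-- differentiation under the integral sign -/
theorem HV2_main (θ : ℝ → ℝ) (u : ℍ → ℝ) (hθ : TK θ) (hu : CD ∞ u) (z : ℍ) :
    HasFDerivAt (onC (hav θ u))
      (∫ v : ℝ, θ v • (fderiv ℝ (onC u) (HV2_L v (z : ℂ))).comp (HV2_L v)) (z : ℂ) := by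
  have hz : 0 < (z : ℂ).im := z.im_pos
  -- a small closed ball
  obtain ⟨r, hr, hball⟩ := Metric.nhds_basis_closedBall.mem_iff.1 (HV2_open.mem_nhds hz)
  have hcont : ContinuousOn (fun p : ℂ × ℝ =>
      θ p.2 • (fderiv ℝ (onC u) (HV2_L p.2 p.1)).comp (HV2_L p.2)) ({w : ℂ | 0 < w.im} ×ˢ univ) := by
    have h1 : Continuous (fun p : ℂ × ℝ => HV2_L p.2 p.1) := by
      have : (fun p : ℂ × ℝ => HV2_L p.2 p.1) = fun p : ℂ × ℝ => p.1 + ((p.2 * p.1.im : ℝ) : ℂ) := by
        funext p; exact HV2_Lapp _ _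
      rw [this]
      fun_prop
    have h2 : ContinuousOn (fun p : ℂ × ℝ => fderiv ℝ (onC u) (HV2_L p.2 p.1))
        ({w : ℂ | 0 < w.im} ×ˢ univ) := by
      refine (HV2_cf u hu).comp h1.continuousOn ?_
      rintro ⟨w, v⟩ ⟨hw, -⟩
      show 0 < (HV2_L v w).im
      rw [HV2_Lim]
      exact hw
    have h3 : ContinuousOn (fun p : ℂ × ℝ => HV2_L p.2) ({w : ℂ | 0 < w.im} ×ˢ univ) :=
      (HV2_Lcont.comp continuous_snd).continuousOn
    exact ((hθ.smooth.continuous.comp continuous_snd).continuousOn).smul (h2.clm_comp h3)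
  have hK : IsCompact (Metric.closedBall (z : ℂ) r ×ˢ tsupport θ) :=
    (isCompact_closedBall _ _).prod hθ.supp
  obtain ⟨M, hM⟩ := hK.exists_bound_of_continuousOn (f := fun p : ℂ × ℝ =>
      θ p.2 • (fderiv ℝ (onC u) (HV2_L p.2 p.1)).comp (HV2_L p.2))
    (hcont.mono (by
      rintro ⟨w, v⟩ ⟨hw, -⟩
      exact ⟨hball hw, mem_univ _⟩))
  have hslice : ∀ w : ℂ, 0 < w.im → Continuous (fun v : ℝ => θ v * onC u (HV2_L v w)) := by
    intro w hw
    refine hθ.smooth.continuous.mul ?_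
    rw [continuous_iff_continuousAt]
    intro v
    have h1 : ContinuousAt (onC u) (HV2_L v w) :=
      (HV2_diff u hu _ (by rw [HV2_Lim]; exact hw)).continuousAt
    have h2 : Continuous (fun v : ℝ => HV2_L v w) := by
      have : (fun v : ℝ => HV2_L v w) = fun v : ℝ => w + ((v * w.im : ℝ) : ℂ) := by
        funext p; exact HV2_Lapp _ _
      rw [this]
      fun_prop
    exact ContinuousAt.comp (f := fun v : ℝ => HV2_L v w) (g := onC u) h1 h2.continuousAt
  have hslice' : Continuous (fun v : ℝ =>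
      θ v • (fderiv ℝ (onC u) (HV2_L v (z : ℂ))).comp (HV2_L v)) := by
    have h1 : Continuous (fun v : ℝ => ((z : ℂ), v)) := by fun_prop
    have h2 := hcont.comp h1.continuousOn (s := univ) (fun v _ => ⟨hz, mem_univ _⟩)
    rw [← continuousOn_univ]
    exact h2
  have key := hasFDerivAt_integral_of_dominated_of_fderiv_le (μ := (volume : Measure ℝ))
    (F := fun (w : ℂ) (v : ℝ) => θ v * onC u (HV2_L v w))
    (F' := fun (w : ℂ) (v : ℝ) => θ v • (fderiv ℝ (onC u) (HV2_L v w)).comp (HV2_L v))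
    (x₀ := (z : ℂ)) (s := Metric.closedBall (z : ℂ) r)
    (bound := (tsupport θ).indicator (fun _ => M))
    (Metric.closedBall_mem_nhds _ hr) ?_ ?_ ?_ ?_ ?_ ?_
  · refine key.congr_of_eventuallyEq ?_
    filter_upwards [HV2_open.mem_nhds hz] with w hw
    exact HV2_onC θ u w hw
  · filter_upwards [HV2_open.mem_nhds hz] with w hw
    exact (hslice w hw).aestronglyMeasurable
  · refine (hslice _ hz).integrable_of_hasCompactSupport ?_
    exact hθ.supp.mul_right
  · exact hslice'.aestronglyMeasurable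
  · refine Eventually.of_forall fun v w hw => ?_
    by_cases hv : v ∈ tsupport θ
    · rw [indicator_of_mem hv]
      exact hM (w, v) ⟨hw, hv⟩
    · rw [indicator_of_notMem hv, image_eq_zero_of_notMem_tsupport hv, zero_smul, norm_zero]
  · exact (integrable_indicator_iff hθ.supp.isClosed.measurableSet).2
      (integrableOn_const (hs := hθ.supp.measure_lt_top.ne))
  · refine Eventually.of_forall fun v w hw => ?_
    have h1 : HasFDerivAt (onC u) (fderiv ℝ (onC u) (HV2_L v w)) (HV2_L v w) :=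
      HV2_diff u hu _ (by rw [HV2_Lim]; exact hball hw)
    have h2 := (h1.comp w (HV2_L v).hasFDerivAt).const_smul (θ v)
    exact h2

theorem HV2_cu (u : ℍ → ℝ) (hu : CD ∞ u) (z : ℍ) : Continuous (fun v : ℝ => onC u (HV2_L v (z : ℂ))) := by
  have hz : 0 < (z : ℂ).im := z.im_pos
  rw [continuous_iff_continuousAt]
  intro v
  have h1 : ContinuousAt (onC u) (HV2_L v z) :=
    (HV2_diff u hu _ (by rw [HV2_Lim]; exact hz)).continuousAt
  have h2 : Continuous (fun v : ℝ => HV2_L v (z : ℂ)) := by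
    have : (fun v : ℝ => HV2_L v (z : ℂ)) = fun v : ℝ => (z : ℂ) + ((v * (z : ℂ).im : ℝ) : ℂ) := by
      funext p; exact HV2_Lapp _ _
    rw [this]
    fun_prop
  exact ContinuousAt.comp (f := fun v : ℝ => HV2_L v (z : ℂ)) (g := onC u) h1 h2.continuousAt

theorem HV2_cd (u : ℍ → ℝ) (hu : CD ∞ u) (z : ℍ) :
    Continuous (fun v : ℝ => fderiv ℝ (onC u) (HV2_L v (z : ℂ))) := by
  have hz : 0 < (z : ℂ).im := z.im_pos
  have h2 : Continuous (fun v : ℝ => HV2_L v (z : ℂ)) := by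
    have : (fun v : ℝ => HV2_L v (z : ℂ)) = fun v : ℝ => (z : ℂ) + ((v * (z : ℂ).im : ℝ) : ℂ) := by
      funext p; exact HV2_Lapp _ _
    rw [this]
    fun_prop
  have h3 := (HV2_cf u hu).comp h2.continuousOn (s := univ) (fun v _ => by
    show 0 < (HV2_L v (z : ℂ)).im
    rw [HV2_Lim]
    exact hz)
  rw [← continuousOn_univ]
  exact h3

theorem HV2_int (θ : ℝ → ℝ) (u : ℍ → ℝ) (hθ : TK θ) (hu : CD ∞ u) (z : ℍ) (e : ℂ) :
    fderiv ℝ (onC (hav θ u)) (z : ℂ) e =
      ∫ v : ℝ, θ v * fderiv ℝ (onC u) (HV2_L v (z : ℂ)) (HV2_L v e) := by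
  rw [(HV2_main θ u hθ hu z).fderiv]
  have hc : Continuous (fun v : ℝ =>
      θ v • (fderiv ℝ (onC u) (HV2_L v (z : ℂ))).comp (HV2_L v)) :=
    hθ.smooth.continuous.smul ((HV2_cd u hu z).clm_comp HV2_Lcont)
  have hi : Integrable (fun v : ℝ =>
      θ v • (fderiv ℝ (onC u) (HV2_L v (z : ℂ))).comp (HV2_L v)) :=
    hc.integrable_of_hasCompactSupport hθ.supp.smul_right
  rw [ContinuousLinearMap.integral_apply hi]
  rfl

/-- the derivative of `v ↦ u(z_v)` -/
theorem HV2_dv (u : ℍ → ℝ) (hu : CD ∞ u) (z : ℍ) (v : ℝ) :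
    HasDerivAt (fun v : ℝ => onC u (HV2_L v (z : ℂ))) (dX u ((v * z.im) +ᵥ z)) v := by
  have hz : 0 < (z : ℂ).im := z.im_pos
  have h1 : HasFDerivAt (onC u) (fderiv ℝ (onC u) (HV2_L v z)) (HV2_L v z) :=
    HV2_diff u hu _ (by rw [HV2_Lim]; exact hz)
  have h2 : HasDerivAt (fun v : ℝ => HV2_L v (z : ℂ)) ((z.im : ℝ) : ℂ) v := by
    have : (fun v : ℝ => HV2_L v (z : ℂ)) = fun v : ℝ => (z : ℂ) + ((v * (z : ℂ).im : ℝ) : ℂ) := by
      funext p; exact HV2_Lapp _ _
    rw [this]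
    have h3 : HasDerivAt (fun v : ℝ => v * (z : ℂ).im) (z : ℂ).im v := by
      have := (hasDerivAt_id v).mul_const (z : ℂ).im
      simpa using this
    have h4 := h3.ofReal_comp.const_add (z : ℂ)
    exact h4
  have h3 := h1.comp_hasDerivAt v h2
  have h4 : fderiv ℝ (onC u) (HV2_L v z) ((z.im : ℝ) : ℂ) = dX u ((v * z.im) +ᵥ z) := by
    have h5 : (((v * z.im) +ᵥ z : ℍ) : ℂ) = HV2_L v (z : ℂ) := by
      rw [HV2_Lapp, coe_vadd, add_comm]
      simp
    unfold dX
    rw [h5, vadd_im]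
    have h6 : ((z.im : ℝ) : ℂ) = z.im • (1 : ℂ) := by simp
    rw [h6, ContinuousLinearMap.map_smul]
  rw [← h4]
  exact h3

theorem HV2_ibp (θ : ℝ → ℝ) (u : ℍ → ℝ) (hθ : TK θ) (hu : CD ∞ u) (z : ℍ) :
    hav θ (dX u) z = -hav (deriv θ) u z := by
  have hdθ : ∀ v, HasDerivAt θ (deriv θ v) v := fun v =>
    ((hθ.smooth.differentiable (by simp)) v).hasDerivAt
  have hsm : ContDiff ℝ ∞ (deriv θ) := (contDiff_infty_iff_deriv.1 hθ.smooth).2
  have hcX : Continuous (fun v : ℝ => dX u ((v * z.im) +ᵥ z)) := by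
    have h1 : (fun v : ℝ => dX u ((v * z.im) +ᵥ z)) =
        fun v : ℝ => z.im • fderiv ℝ (onC u) (HV2_L v (z : ℂ)) 1 := by
      funext v
      have h5 : (((v * z.im) +ᵥ z : ℍ) : ℂ) = HV2_L v (z : ℂ) := by
        rw [HV2_Lapp, coe_vadd, add_comm]
        simp
      unfold dX
      rw [h5, vadd_im]
    rw [h1]
    exact ((HV2_cd u hu z).clm_apply continuous_const).const_smul z.im
  have hcu := HV2_cu u hu z
  have hi1 : Integrable (fun v => deriv θ v * onC u (HV2_L v (z : ℂ))) :=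
    (hsm.continuous.mul hcu).integrable_of_hasCompactSupport hθ.supp.deriv.mul_right
  have hi2 : Integrable (fun v => θ v * dX u ((v * z.im) +ᵥ z)) :=
    (hθ.smooth.continuous.mul hcX).integrable_of_hasCompactSupport hθ.supp.mul_right
  have h0 : ∫ v, (deriv θ v * onC u (HV2_L v (z : ℂ)) + θ v * dX u ((v * z.im) +ᵥ z)) = 0 := by
    apply integral_eq_zero_of_hasDerivAt_of_integrable
      (f := fun v => θ v * onC u (HV2_L v (z : ℂ)))
    · intro v
      exact (hdθ v).mul (HV2_dv u hu z v)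
    · exact hi1.add hi2
    · exact (hθ.smooth.continuous.mul hcu).integrable_of_hasCompactSupport hθ.supp.mul_right
  rw [integral_add hi1 hi2] at h0
  have h1 : hav (deriv θ) u z = ∫ v, deriv θ v * onC u (HV2_L v (z : ℂ)) := by
    unfold hav
    refine integral_congr_ae (Eventually.of_forall fun v => ?_)
    show deriv θ v * u ((v * z.im) +ᵥ z) = _
    rw [HV2_u u v z]
  rw [h1]
  unfold hav
  linarith

theorem HV2 : HV2_stmt := by
  intro θ u hθ hu z
  have hcoe : ∀ v : ℝ, (((v * z.im) +ᵥ z : ℍ) : ℂ) = HV2_L v (z : ℂ) := by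
    intro v
    rw [HV2_Lapp, coe_vadd, add_comm]
    simp
  have hX : dX (hav θ u) z = hav θ (dX u) z := by
    have h1 := HV2_int θ u hθ hu z 1
    unfold dX
    rw [h1, smul_eq_mul, ← integral_const_mul]
    unfold hav
    refine integral_congr_ae (Eventually.of_forall fun v => ?_)
    simp only
    rw [hcoe, vadd_im, HV2_Lapp v 1]
    simp only [Complex.one_im, mul_zero, Complex.ofReal_zero, add_zero, smul_eq_mul]
    ring
  have hvt : TK (fun v => v * θ v) := ⟨contDiff_id.mul hθ.smooth, hθ.supp.mul_left⟩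
  have hib := HV2_ibp (fun v => v * θ v) u hvt hu z
  have hY : dY (hav θ u) z = hav θ (dY u) z + hav (fun v => v * θ v) (dX u) z := by
    have h1 := HV2_int θ u hθ hu z Complex.I
    unfold hav
    rw [← integral_add]
    · unfold dY
      unfold hav at h1
      rw [h1, smul_eq_mul, ← integral_const_mul]
      refine integral_congr_ae (Eventually.of_forall fun v => ?_)
      simp only
      unfold dX
      rw [hcoe, vadd_im, HV2_Lapp v Complex.I]
      have h2 : Complex.I + ((v * Complex.I.im : ℝ) : ℂ) = Complex.I + v • (1 : ℂ) := by simp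
      rw [h2, map_add, ContinuousLinearMap.map_smul]
      simp only [smul_eq_mul]
      ring
    · have h3 : (fun v : ℝ => θ v * dY u ((v * z.im) +ᵥ z)) =
          fun v : ℝ => θ v * (z.im • fderiv ℝ (onC u) (HV2_L v (z : ℂ)) Complex.I) := by
        funext v
        unfold dY
        rw [hcoe, vadd_im]
      rw [h3]
      exact (hθ.smooth.continuous.mul
        (((HV2_cd u hu z).clm_apply continuous_const).const_smul z.im)).integrable_of_hasCompactSupport
        hθ.supp.mul_right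
    · have h3 : (fun v : ℝ => (v * θ v) * dX u ((v * z.im) +ᵥ z)) =
          fun v : ℝ => (v * θ v) * (z.im • fderiv ℝ (onC u) (HV2_L v (z : ℂ)) 1) := by
        funext v
        unfold dX
        rw [hcoe, vadd_im]
      rw [h3]
      exact (hvt.smooth.continuous.mul
        (((HV2_cd u hu z).clm_apply continuous_const).const_smul z.im)).integrable_of_hasCompactSupport
        hvt.supp.mul_right
  refine ⟨hX, ?_, ?_⟩
  · rw [hX]
    exact HV2_ibp θ u hθ hu z
  · rw [hY, hib]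
    have h4 : deriv (fun v => v * θ v) = eu θ := rfl
    rw [h4]
    ring

end Pool.Agent.QX
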